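import Pool.Agent.Helper77.SD.Core

/-!
The explicit inequality.
-/

set_option autoImplicit false
open scoped Classical Pointwise

namespace Pool.Agent.Helper77.SD

open Pool.Agent.Helper85.LowMult Pool.Agent.Helper85.GAP

lemma card_le_circ (V : Finset E) : V.card ≤ (circ V).card := by
  apply Finset.card_le_card_of_injOn (fun v => (v, v))
  · intro v hv
    simp only [circ, Finset.coe_filter, Set.mem_ofPred_eq, Finset.mem_product]
    simp only [Finset.mem_coe] at hv
    exact ⟨⟨hv, hv⟩, trivial⟩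
  · intro v _ w _ h
    simp only [Prod.mk.injEq] at h
    exact h.1

lemma circ_diff_zero {A : Finset E} (hA : A.Nonempty) :
    ((circ (A - A)).card : ℝ) ≤
      380 * (dbl A ^ 8 * A.card) * (Real.logb 2 (9 * (dbl A ^ 8 * A.card)) + 1) := by
  have h := circ_diff hA 0
  simp only [zero_add, Finset.image_id'] at h
  exact h

lemma dbl_pow_le {A : Finset E} (hA : A.Nonempty) {n : ℝ} (hn : (A.card : ℝ) ≤ n) :
    dbl A ^ 8 * A.card ≤ n ^ 9 := by
  have h0 : (0 : ℝ) ≤ A.card := Nat.cast_nonneg _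
  have h1 : 0 ≤ dbl A := le_trans zero_le_one (one_le_dbl hA)
  calc dbl A ^ 8 * A.card ≤ n ^ 8 * n := by
        apply mul_le_mul _ hn h0 (by positivity)
        exact pow_le_pow_left₀ h1 ((dbl_le_card hA).trans hn) 8
    _ = n ^ 9 := by ring

theorem lw_ge (P Q : Finset E) (hQ : Q ⊆ P) (n L X R : ℝ) (hn : n = P.card) (hL1 : 1 ≤ L)
    (hX1 : 1 ≤ X) (hLg : ∀ y, 0 < y → y ≤ 9 * n ^ 9 → Real.logb 2 y + 1 ≤ L)
    (hE : ((circ (Q - Q)).card : ℝ) ≤ X * n) (hR : R = 380000000 * X ^ 7 * L) (hRn : 2 * R ≤ n)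
    (hq : n ≤ 2 * Q.card) : n / (2 * R ^ 2) ≤ Lw P Q := by
  have hX7 : 1 ≤ X ^ 7 := one_le_pow₀ hX1
  have hR0 : 380000000 ≤ R := by
    rw [hR]
    have : (1 : ℝ) ≤ X ^ 7 * L := by nlinarith
    nlinarith
  have hRpos : 0 < R := by linarith
  have hn0 : 0 < n := by linarith
  have hq0 : (0 : ℝ) < Q.card := by linarith
  have h0 : (P.card : ℝ) / R < Q.card := by
    rw [← hn, div_lt_iff₀ hRpos]
    nlinarith
  obtain ⟨A, hAQ, hA, v0, hcase⟩ := core P Q hQ R hRpos h0
  rw [← hn] at hA
  set E0 : ℝ := ((circ (Q - Q)).card : ℝ) with hE0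
  have hQne : Q.Nonempty := by
    rw [← Finset.card_pos]
    exact_mod_cast hq0
  rcases hcase with h1 | ⟨h1, h2⟩
  · -- case 1
    refine le_trans ?_ h1
    have h3 : (Q.card : ℝ) ≤ E0 := by
      rw [hE0]
      exact_mod_cast (card_le_sub Q hQne).trans (card_le_circ _)
    rw [div_le_div_iff₀ (by positivity) (by positivity)]
    nlinarith [sq_nonneg R, mul_pos hRpos hRpos]
  · -- case 2
    have hnR : 2 ≤ n / R := by
      rw [le_div_iff₀ hRpos]
      exact hRn
    have hA2 : (2 : ℝ) < A.card := lt_of_le_of_lt hnR hA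
    have hAne : A.Nonempty := by
      rw [← Finset.card_pos]
      have : (0 : ℝ) < A.card := by linarith
      exact_mod_cast this
    set κ := dbl A with hκ
    have hκ1 : 1 ≤ κ := one_le_dbl hAne
    have hmul : κ * A.card = ((A - A).card : ℝ) := dbl_mul hAne
    have hA0 : (0 : ℝ) < A.card := by linarith
    have hAn : (A.card : ℝ) ≤ n := by
      rw [hn]
      exact_mod_cast Finset.card_le_card (hAQ.trans hQ)
    -- the doubling constant of `A`
    have hκX : κ ≤ 5 * X := by
      have h3 : κ * A.card ≤ 4 * E0 / R + 1 := by rw [hmul]; exact h1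
      have h4 : 4 * E0 / R + 1 ≤ (4 * X + 1) * (n / R) := by
        have h5 : 4 * E0 / R ≤ 4 * (X * n) / R := by
          apply div_le_div_of_nonneg_right _ hRpos.le
          linarith
        have h6 : 4 * (X * n) / R = 4 * X * (n / R) := by ring
        linarith
      have h7 : κ * (n / R) ≤ (4 * X + 1) * (n / R) := by
        have : κ * (n / R) ≤ κ * A.card := mul_le_mul_of_nonneg_left hA.le (by linarith)
        linarith
      have h8 : κ ≤ 4 * X + 1 := le_of_mul_le_mul_right h7 (by linarith)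
      linarith
    have hen := circ_diff hAne v0
    have hpos : 0 < 9 * (κ ^ 8 * (A.card : ℝ)) := by positivity
    have hlog : Real.logb 2 (9 * (κ ^ 8 * (A.card : ℝ))) + 1 ≤ L := by
      apply hLg _ hpos
      have := dbl_pow_le hAne hAn
      linarith
    have hen2 : ((circ ((A - A).image (fun w => v0 + w))).card : ℝ) ≤
        380 * (κ ^ 8 * A.card) * L := by
      refine hen.trans ?_
      apply mul_le_mul_of_nonneg_left hlog
      positivity
    -- the main inequality
    have hLw2 : 0 ≤ Lw P Q + 2 * E0 / R ^ 2 := by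
      have : 0 ≤ Lw P Q := by
        unfold Lw
        have h3 : (Q.card : ℝ) ≤ P.card := by exact_mod_cast Finset.card_le_card hQ
        have h4 : (0 : ℝ) ≤ ((low P).card : ℝ) := Nat.cast_nonneg _
        linarith
      have : 0 ≤ 2 * E0 / R ^ 2 := by positivity
      linarith
    have h3 : (κ * A.card / 4) ^ 2 ≤ (Lw P Q + 2 * E0 / R ^ 2) * (380 * (κ ^ 8 * A.card) * L) := by
      have h4 : (κ * A.card / 4) ^ 2 ≤ ((((A - A).card : ℝ) - 1) / 2) ^ 2 := by
        rw [← hmul]
        apply pow_le_pow_left₀ (by positivity)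
        have : (2 : ℝ) ≤ κ * A.card := by nlinarith
        linarith
      exact (h4.trans h2).trans (mul_le_mul_of_nonneg_left hen2 hLw2)
    have h4 : (A.card : ℝ) ≤ 6080 * κ ^ 6 * L * (Lw P Q + 2 * E0 / R ^ 2) := by
      have h5 : (κ ^ 2 * A.card) * A.card ≤
          (κ ^ 2 * A.card) * (6080 * κ ^ 6 * L * (Lw P Q + 2 * E0 / R ^ 2)) := by
        have e1 : (κ ^ 2 * A.card) * A.card = 16 * (κ * A.card / 4) ^ 2 := by ring
        have e2 : (κ ^ 2 * A.card) * (6080 * κ ^ 6 * L * (Lw P Q + 2 * E0 / R ^ 2)) =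
          16 * ((Lw P Q + 2 * E0 / R ^ 2) * (380 * (κ ^ 8 * A.card) * L)) := by ring
        rw [e1, e2]
        linarith
      exact le_of_mul_le_mul_left h5 (by positivity)
    have h5 : n / R ≤ 95000000 * X ^ 6 * L * (Lw P Q + 2 * (X * n) / R ^ 2) := by
      have h6 : κ ^ 6 ≤ (5 * X) ^ 6 := pow_le_pow_left₀ (by linarith) hκX 6
      have h7 : 2 * E0 / R ^ 2 ≤ 2 * (X * n) / R ^ 2 := by
        apply div_le_div_of_nonneg_right _ (by positivity)
        linarith
      calc n / R ≤ A.card := hA.le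
        _ ≤ 6080 * κ ^ 6 * L * (Lw P Q + 2 * E0 / R ^ 2) := h4
        _ ≤ 6080 * (5 * X) ^ 6 * L * (Lw P Q + 2 * E0 / R ^ 2) := by gcongr
        _ ≤ 6080 * (5 * X) ^ 6 * L * (Lw P Q + 2 * (X * n) / R ^ 2) := by gcongr
        _ = _ := by ring
    have h6 : 95000000 * X ^ 6 * L * (2 * (X * n) / R ^ 2) = (1 / 2) * (n / R) := by
      have hL0 : L ≠ 0 := by linarith
      have hX0 : X ≠ 0 := by linarith
      have e1 : 190000000 * X ^ 7 * L = R / 2 := by rw [hR]; ring
      calc 95000000 * X ^ 6 * L * (2 * (X * n) / R ^ 2) =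
            (190000000 * X ^ 7 * L) * n / R ^ 2 := by ring
        _ = (R / 2) * n / R ^ 2 := by rw [e1]
        _ = _ := by field_simp
    have h7 : (1 / 2) * (n / R) ≤ 95000000 * X ^ 6 * L * Lw P Q := by
      have e1 : 95000000 * X ^ 6 * L * (Lw P Q + 2 * (X * n) / R ^ 2) =
        95000000 * X ^ 6 * L * Lw P Q + 95000000 * X ^ 6 * L * (2 * (X * n) / R ^ 2) := by ring
      rw [e1, h6] at h5
      linarith
    have hLw0 : 0 ≤ Lw P Q := by
      have h8 : 0 ≤ (1 / 2) * (n / R) := by positivity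
      have h9 : 0 < 95000000 * X ^ 6 * L := by positivity
      by_contra hcon
      push Not at hcon
      nlinarith
    have h8 : 95000000 * X ^ 6 * L ≤ R := by
      have h9 : 0 ≤ X ^ 6 * L := by positivity
      calc 95000000 * X ^ 6 * L = 95000000 * (X ^ 6 * L) := by ring
        _ ≤ 380000000 * (X ^ 6 * L) * 1 := by linarith
        _ ≤ 380000000 * (X ^ 6 * L) * X := mul_le_mul_of_nonneg_left hX1 (by positivity)
        _ = R := by rw [hR]; ring
    have h9 : (1 / 2) * (n / R) ≤ R * Lw P Q := h7.trans (mul_le_mul_of_nonneg_right h8 hLw0)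
    rw [div_le_iff₀ (by positivity)]
    calc n = (1 / 2) * (n / R) * (2 * R) := by field_simp
      _ ≤ R * Lw P Q * (2 * R) := mul_le_mul_of_nonneg_right h9 (by positivity)
      _ = _ := by ring

end Pool.Agent.Helper77.SD
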