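import Pool.Agent.Helper77.SD.Energy
import Pool.Agent.Helper85.GAP.Robust

/-!
The combinatorial core: the longest popular difference vector, and the circles outside it.
-/

set_option autoImplicit false
open scoped Classical Pointwise

namespace Pool.Agent.Helper77.SD

open Pool.Agent.Helper85.LowMult Pool.Agent.Helper85.GAP

/-- the starting points of the copies of the vector `v` in `Q` -/
noncomputable def rep (Q : Finset E) (v : E) : Finset E := Q.filter (fun x => x + v ∈ Q)

/-- the vectors of `V` of length `d` -/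
noncomputable def cir (V : Finset E) (d : ℝ) : Finset E := V.filter (fun v => ‖v‖ = d)

lemma mem_cir {V : Finset E} {d : ℝ} {v : E} : v ∈ cir V d ↔ v ∈ V ∧ ‖v‖ = d := by
  rw [cir, Finset.mem_filter]

lemma pairs_card_le (Q : Finset E) (d m : ℝ)
    (h : ∀ v ∈ Q - Q, ‖v‖ = d → ((rep Q v).card : ℝ) ≤ m) :
    ((pairs Q d).card : ℝ) ≤ (cir (Q - Q) d).card * m := by
  have hmaps : ∀ x ∈ pairs Q d, x.2 - x.1 ∈ cir (Q - Q) d := by
    intro x hx
    rw [mem_pairs] at hx
    rw [mem_cir]
    refine ⟨Finset.sub_mem_sub hx.2.1 hx.1, ?_⟩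
    rw [← hx.2.2.2, dist_comm, dist_eq_norm]
  rw [Finset.card_eq_sum_card_fiberwise hmaps]
  push_cast
  calc _ ≤ ∑ _v ∈ cir (Q - Q) d, m := by
        apply Finset.sum_le_sum
        intro v hv
        rw [mem_cir] at hv
        refine le_trans ?_ (h v hv.1 hv.2)
        norm_cast
        apply Finset.card_le_card_of_injOn (fun x => x.1)
        · rintro ⟨x, y⟩ hx
          simp only [Finset.coe_filter, Set.mem_ofPred_eq, mem_pairs, rep] at hx ⊢
          refine ⟨hx.1.1, ?_⟩
          rw [← hx.2]
          simpa using hx.1.2.1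
        · rintro ⟨x, y⟩ hx ⟨x', y'⟩ hx' hxx
          simp only [Finset.coe_filter, Set.mem_ofPred_eq] at hx hx' hxx
          rw [Prod.mk.injEq]
          refine ⟨hxx, ?_⟩
          have e1 : y = v + x := by rw [← hx.2]; abel
          have e2 : y' = v + x' := by rw [← hx'.2]; abel
          rw [e1, e2, hxx]
    _ = _ := by rw [Finset.sum_const, nsmul_eq_mul]

lemma rich_le (V rich : Finset E) (hr : rich ⊆ V) (R : ℝ)
    (h : ∀ v ∈ rich, R ≤ (cir V ‖v‖).card) : rich.card * R ≤ ((circ V).card : ℝ) := by
  have h1 : ∑ v ∈ rich, (cir V ‖v‖).card ≤ (circ V).card := by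
    have h2 : ∀ v ∈ rich, (cir V ‖v‖).card = (({v} : Finset E) ×ˢ cir V ‖v‖).card := by
      intro v _
      rw [Finset.card_product, Finset.card_singleton, one_mul]
    rw [Finset.sum_congr rfl h2, ← Finset.card_biUnion]
    · apply Finset.card_le_card
      rintro ⟨x, y⟩ hxy
      rw [Finset.mem_biUnion] at hxy
      obtain ⟨v, hv, hxy⟩ := hxy
      rw [Finset.mem_product, Finset.mem_singleton, mem_cir] at hxy
      obtain ⟨rfl, h3, h4⟩ := hxy
      rw [circ, Finset.mem_filter, Finset.mem_product]
      exact ⟨⟨hr hv, h3⟩, h4.symm⟩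
    · intro v _ v' _ hne
      rw [Function.onFun, Finset.disjoint_left]
      rintro ⟨x, y⟩ hx hx'
      rw [Finset.mem_product, Finset.mem_singleton] at hx hx'
      exact hne (hx.1.symm.trans hx'.1)
  calc rich.card * R = ∑ _v ∈ rich, R := by rw [Finset.sum_const, nsmul_eq_mul]
    _ ≤ ∑ v ∈ rich, ((cir V ‖v‖).card : ℝ) := Finset.sum_le_sum h
    _ ≤ _ := by exact_mod_cast h1

lemma cs_le (U : Finset E) :
    (U.card : ℝ) ^ 2 ≤ (U.image (fun v => ‖v‖)).card * ((circ U).card : ℝ) := by
  have hmaps : ∀ v ∈ U, ‖v‖ ∈ U.image (fun v => ‖v‖) := fun v hv => Finset.mem_image_of_mem _ hv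
  have h1 := Finset.card_eq_sum_card_fiberwise hmaps
  have h2 : ∑ d ∈ U.image (fun v => ‖v‖), (U.filter (fun v => ‖v‖ = d)).card ^ 2 ≤
      (circ U).card := by
    have h3 : ∀ d ∈ U.image (fun v => ‖v‖), (U.filter (fun v => ‖v‖ = d)).card ^ 2 =
        ((U.filter (fun v => ‖v‖ = d)) ×ˢ (U.filter (fun v => ‖v‖ = d))).card := by
      intro d _
      rw [Finset.card_product, sq]
    rw [Finset.sum_congr rfl h3, ← Finset.card_biUnion]
    · apply Finset.card_le_card
      rintro ⟨x, y⟩ hxy
      rw [Finset.mem_biUnion] at hxy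
      obtain ⟨d, -, hxy⟩ := hxy
      rw [Finset.mem_product, Finset.mem_filter, Finset.mem_filter] at hxy
      obtain ⟨⟨h3, h4⟩, h5, h6⟩ := hxy
      rw [circ, Finset.mem_filter, Finset.mem_product]
      exact ⟨⟨h3, h5⟩, h4.trans h6.symm⟩
    · intro v _ v' _ hne
      rw [Function.onFun, Finset.disjoint_left]
      rintro ⟨x, y⟩ hx hx'
      rw [Finset.mem_product, Finset.mem_filter] at hx hx'
      exact hne (hx.1.2.symm.trans hx'.1.2)
  calc (U.card : ℝ) ^ 2 =
        (∑ d ∈ U.image (fun v => ‖v‖), ((U.filter (fun v => ‖v‖ = d)).card : ℝ)) ^ 2 := by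
        rw [h1]
        push_cast
        rfl
    _ ≤ (U.image (fun v => ‖v‖)).card *
        ∑ d ∈ U.image (fun v => ‖v‖), ((U.filter (fun v => ‖v‖ = d)).card : ℝ) ^ 2 :=
        sq_sum_le_card_mul_sum_sq
    _ ≤ _ := by
        apply mul_le_mul_of_nonneg_left _ (Nat.cast_nonneg _)
        exact_mod_cast h2

lemma circ_mono {U V : Finset E} (h : U ⊆ V) : (circ U).card ≤ (circ V).card := by
  apply Finset.card_le_card
  intro p hp
  rw [circ, Finset.mem_filter, Finset.mem_product] at hp ⊢
  exact ⟨⟨h hp.1.1, h hp.1.2⟩, hp.2⟩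

/-- the number of low distances, with the loss from the points outside `Q` -/
noncomputable def Lw (P Q : Finset E) : ℝ := (low P).card + 2 * ((P.card : ℝ) - Q.card)

theorem core (P Q : Finset E) (hQ : Q ⊆ P) (R : ℝ) (hR : 0 < R)
    (h0 : (P.card : ℝ) / R < Q.card) :
    ∃ A ⊆ Q, (P.card : ℝ) / R < A.card ∧ ∃ v0 : E,
      (((circ (Q - Q)).card : ℝ) / R ^ 2 ≤ Lw P Q ∨
        (((A - A).card : ℝ) ≤ 4 * (circ (Q - Q)).card / R + 1 ∧
          ((((A - A).card : ℝ) - 1) / 2) ^ 2 ≤
            (Lw P Q + 2 * (circ (Q - Q)).card / R ^ 2) *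
              (circ ((A - A).image (fun w => v0 + w))).card)) := by
  set n : ℝ := (P.card : ℝ) with hn
  set V := Q - Q with hV
  set E0 : ℝ := ((circ V).card : ℝ) with hE0
  have hQne : Q.Nonempty := by
    rw [← Finset.card_pos]
    have h1 : (0 : ℝ) ≤ n / R := by positivity
    have : (0 : ℝ) < Q.card := lt_of_le_of_lt h1 h0
    exact_mod_cast this
  have h0V : (0 : E) ∈ V := by
    obtain ⟨a, ha⟩ := hQne
    rw [hV, Finset.mem_sub]
    exact ⟨a, ha, a, ha, sub_self a⟩
  -- the longest popular vector
  have hpop : (V.filter (fun v => n / R < ((rep Q v).card : ℝ))).Nonempty := by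
    refine ⟨0, ?_⟩
    rw [Finset.mem_filter]
    refine ⟨h0V, ?_⟩
    have : rep Q 0 = Q := by
      unfold rep
      simp
    rw [this]
    exact h0
  obtain ⟨v0, hv0, hmax⟩ := Finset.exists_max_image _ (fun v => ‖v‖) hpop
  rw [Finset.mem_filter] at hv0
  set A := rep Q v0 with hA
  have hAQ : A ⊆ Q := Finset.filter_subset _ _
  have hA2 : ∀ a ∈ A, a + v0 ∈ Q := fun a ha => (Finset.mem_filter.mp ha).2
  have hAne : A.Nonempty := by
    rw [← Finset.card_pos]
    have h1 : (0 : ℝ) ≤ n / R := by positivity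
    have : (0 : ℝ) < A.card := lt_of_le_of_lt h1 hv0.2
    exact_mod_cast this
  have h0A : (0 : E) ∈ A - A := by
    obtain ⟨a, ha⟩ := hAne
    rw [Finset.mem_sub]
    exact ⟨a, ha, a, ha, sub_self a⟩
  have hfar : ∀ v ∈ V, ‖v0‖ < ‖v‖ → ((rep Q v).card : ℝ) ≤ n / R := by
    intro v hv hvv
    by_contra hcon
    push Not at hcon
    have := hmax v (Finset.mem_filter.mpr ⟨hv, hcon⟩)
    linarith
  -- long vectors
  set Wp := (A - A).filter (fun w => w ≠ 0 ∧ 0 ≤ inner ℝ w v0) with hWp
  set Up := Wp.image (fun w => v0 + w) with hUp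
  set Long := V.filter (fun v => ‖v0‖ < ‖v‖) with hLong
  have hUpL : Up ⊆ Long := by
    intro u hu
    rw [hUp, Finset.mem_image] at hu
    obtain ⟨w, hw, rfl⟩ := hu
    rw [hWp, Finset.mem_filter, Finset.mem_sub] at hw
    obtain ⟨⟨a, ha, b, hb, rfl⟩, hne, hin⟩ := hw
    rw [hLong, Finset.mem_filter]
    constructor
    · have e : v0 + (a - b) = (a + v0) - b := by abel
      rw [e]
      exact Finset.sub_mem_sub (hA2 a ha) (hAQ hb)
    · have h2 : ‖v0 + (a - b)‖ ^ 2 = ‖v0‖ ^ 2 + 2 * inner ℝ v0 (a - b) + ‖a - b‖ ^ 2 :=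
        norm_add_sq_real _ _
      have h3 : 0 < ‖a - b‖ := norm_pos_iff.mpr hne
      rw [real_inner_comm] at hin
      have h4 : ‖v0‖ ^ 2 < ‖v0 + (a - b)‖ ^ 2 := by
        rw [h2]
        nlinarith [mul_pos h3 h3]
      exact lt_of_pow_lt_pow_left₀ 2 (norm_nonneg _) h4
  have hUpcard : ((A - A).card : ℝ) - 1 ≤ 2 * Up.card := by
    have h1 : Up.card = Wp.card := Finset.card_image_of_injective _ (add_right_injective v0)
    have h2 : (A - A).erase 0 ⊆ Wp ∪ Wp.image (fun w => -w) := by
      intro w hw
      rw [Finset.mem_erase] at hw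
      rw [Finset.mem_union, Finset.mem_image]
      by_cases hin : 0 ≤ inner ℝ w v0
      · left
        rw [hWp, Finset.mem_filter]
        exact ⟨hw.2, hw.1, hin⟩
      · right
        refine ⟨-w, ?_, neg_neg w⟩
        rw [hWp, Finset.mem_filter]
        refine ⟨?_, neg_ne_zero.mpr hw.1, ?_⟩
        · have hw2 := hw.2
          rw [Finset.mem_sub] at hw2 ⊢
          obtain ⟨a, ha, b, hb, rfl⟩ := hw2
          exact ⟨b, hb, a, ha, (neg_sub a b).symm⟩
        · rw [inner_neg_left]
          linarith
    have h3 := Finset.card_le_card h2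
    have h4 := Finset.card_union_le Wp (Wp.image (fun w => -w))
    have h5 := Finset.card_image_le (s := Wp) (f := fun w : E => -w)
    rw [Finset.card_erase_of_mem h0A] at h3
    have h6 : (A - A).card ≤ 2 * Up.card + 1 := by omega
    have h7 : ((A - A).card : ℝ) ≤ 2 * Up.card + 1 := by exact_mod_cast h6
    linarith
  set N : ℝ := (Long.card : ℝ) with hN
  set poor := Long.filter (fun v => ((cir V ‖v‖).card : ℝ) ≤ R) with hpoor
  set rich := Long.filter (fun v => ¬ ((cir V ‖v‖).card : ℝ) ≤ R) with hrich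
  have hNsum : N = poor.card + rich.card := by
    rw [hN, hpoor, hrich]
    have := Finset.card_filter_add_card_filter_not (s := Long)
      (fun v => ((cir V ‖v‖).card : ℝ) ≤ R)
    exact_mod_cast this.symm
  have hLongV : Long ⊆ V := Finset.filter_subset _ _
  have hrichR : rich.card * R ≤ E0 :=
    rich_le V rich ((Finset.filter_subset _ _).trans hLongV) R
      (fun v hv => by
        have := (Finset.mem_filter.mp hv).2
        linarith)
  set S := poor.image (fun v => ‖v‖) with hS
  have hSL : (S.card : ℝ) ≤ Lw P Q := by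
    have h1 := few_distances hQ S (by
      intro d hd
      rw [hS, Finset.mem_image] at hd
      obtain ⟨v, hv, rfl⟩ := hd
      rw [hpoor, Finset.mem_filter, hLong, Finset.mem_filter] at hv
      obtain ⟨⟨hvV, hvl⟩, hvR⟩ := hv
      constructor
      · have hvV' := hvV
        rw [hV, Finset.mem_sub] at hvV'
        obtain ⟨a, ha, b, hb, hab⟩ := hvV'
        refine ⟨(b, a), ?_⟩
        rw [mem_pairs]
        refine ⟨hb, ha, ?_, ?_⟩
        · intro hba
          simp only at hba
          rw [← hab, hba, sub_self, norm_zero] at hvl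
          exact absurd (norm_nonneg v0) (not_le.mpr hvl)
        · simp only
          rw [dist_comm, dist_eq_norm, hab]
      · have h2 := pairs_card_le Q ‖v‖ (n / R) (by
          intro u hu hun
          exact hfar u hu (by rw [hun]; exact hvl))
        have h3 : ((pairs Q ‖v‖).card : ℝ) ≤ n := by
          refine h2.trans ?_
          calc _ ≤ R * (n / R) := mul_le_mul_of_nonneg_right hvR (by positivity)
            _ = n := by field_simp
        rw [hn] at h3
        exact_mod_cast h3)
    have h4 : Q.card ≤ P.card := Finset.card_le_card hQ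
    unfold Lw
    have h5 : ((P.card - Q.card : ℕ) : ℝ) = (P.card : ℝ) - Q.card := by
      rw [Nat.cast_sub h4]
    calc (S.card : ℝ) ≤ ((low P).card : ℝ) + 2 * ((P.card - Q.card : ℕ) : ℝ) := by exact_mod_cast h1
      _ = _ := by rw [h5]
  have hpoorS : (poor.card : ℝ) ≤ S.card * R := by
    have hmaps : ∀ v ∈ poor, ‖v‖ ∈ S := fun v hv => Finset.mem_image_of_mem _ hv
    rw [Finset.card_eq_sum_card_fiberwise hmaps]
    push_cast
    calc _ ≤ ∑ _d ∈ S, R := by
          apply Finset.sum_le_sum
          intro d hd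
          rw [hS, Finset.mem_image] at hd
          obtain ⟨v, hv, rfl⟩ := hd
          rw [hpoor, Finset.mem_filter] at hv
          refine le_trans ?_ hv.2
          norm_cast
          apply Finset.card_le_card
          intro u hu
          rw [Finset.mem_filter] at hu
          rw [mem_cir]
          exact ⟨hLongV (Finset.mem_filter.mp hu.1).1, hu.2⟩
      _ = _ := by rw [Finset.sum_const, nsmul_eq_mul]
  refine ⟨A, hAQ, hv0.2, v0, ?_⟩
  by_cases hcase : 2 * E0 ≤ R * N
  · left
    have h1 : E0 / R ≤ poor.card := by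
      rw [div_le_iff₀ hR]
      nlinarith
    calc E0 / R ^ 2 = (E0 / R) / R := by
          field_simp
      _ ≤ S.card := by
          rw [div_le_iff₀ hR]
          exact h1.trans hpoorS
      _ ≤ _ := hSL
  · right
    push Not at hcase
    have hNle : N ≤ 2 * E0 / R := by
      rw [le_div_iff₀ hR]
      linarith
    constructor
    · have h1 : (Up.card : ℝ) ≤ N := by
        rw [hN]
        exact_mod_cast Finset.card_le_card hUpL
      have h2 : 4 * E0 / R = 2 * (2 * E0 / R) := by ring
      rw [h2]
      linarith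
    · set D := Up.image (fun v => ‖v‖) with hD
      set Sr := rich.image (fun v => ‖v‖) with hSr
      have hDsub : D ⊆ S ∪ Sr := by
        intro d hd
        rw [hD, Finset.mem_image] at hd
        obtain ⟨v, hv, rfl⟩ := hd
        have hvL := hUpL hv
        rw [Finset.mem_union, hS, hSr, Finset.mem_image, Finset.mem_image]
        by_cases hvR : ((cir V ‖v‖).card : ℝ) ≤ R
        · left
          exact ⟨v, Finset.mem_filter.mpr ⟨hvL, hvR⟩, rfl⟩
        · right
          exact ⟨v, Finset.mem_filter.mpr ⟨hvL, hvR⟩, rfl⟩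
      have hSrR : (Sr.card : ℝ) * R ≤ rich.card := by
        have hmaps : ∀ v ∈ rich, ‖v‖ ∈ Sr := fun v hv => Finset.mem_image_of_mem _ hv
        rw [Finset.card_eq_sum_card_fiberwise hmaps]
        push_cast
        calc (Sr.card : ℝ) * R = ∑ _d ∈ Sr, R := by rw [Finset.sum_const, nsmul_eq_mul]
          _ ≤ _ := by
            apply Finset.sum_le_sum
            intro d hd
            rw [hSr, Finset.mem_image] at hd
            obtain ⟨v, hv, rfl⟩ := hd
            rw [hrich, Finset.mem_filter] at hv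
            obtain ⟨hvL, hvR⟩ := hv
            push Not at hvR
            refine hvR.le.trans ?_
            norm_cast
            apply Finset.card_le_card
            intro u hu
            rw [mem_cir] at hu
            rw [Finset.mem_filter]
            refine ⟨?_, hu.2⟩
            rw [hrich, Finset.mem_filter, hLong, Finset.mem_filter, hu.2]
            rw [hLong, Finset.mem_filter] at hvL
            refine ⟨⟨hu.1, hvL.2⟩, ?_⟩
            push Not
            exact hvR
      have hrN : (rich.card : ℝ) ≤ N := by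
        rw [hNsum]
        have : (0 : ℝ) ≤ poor.card := Nat.cast_nonneg _
        linarith
      have hSrle : (Sr.card : ℝ) ≤ 2 * E0 / R ^ 2 := by
        have h1 : (Sr.card : ℝ) ≤ N / R := by
          rw [le_div_iff₀ hR]
          linarith
        have h2 : N / R ≤ (2 * E0 / R) / R := div_le_div_of_nonneg_right hNle hR.le
        have h3 : (2 * E0 / R) / R = 2 * E0 / R ^ 2 := by field_simp
        linarith
      have hDcard : (D.card : ℝ) ≤ Lw P Q + 2 * E0 / R ^ 2 := by
        have h1 := (Finset.card_le_card hDsub).trans (Finset.card_union_le _ _)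
        have h2 : (D.card : ℝ) ≤ S.card + Sr.card := by exact_mod_cast h1
        linarith
      have hcs := cs_le Up
      have hmono : ((circ Up).card : ℝ) ≤ (circ ((A - A).image (fun w => v0 + w))).card := by
        exact_mod_cast circ_mono (Finset.image_subset_image (Finset.filter_subset _ _))
      have hAA1 : (0 : ℝ) ≤ ((A - A).card : ℝ) - 1 := by
        have : 1 ≤ (A - A).card := Finset.card_pos.mpr ⟨0, h0A⟩
        have : (1 : ℝ) ≤ ((A - A).card : ℝ) := by exact_mod_cast this
        linarith
      have hLw0 : 0 ≤ Lw P Q + 2 * E0 / R ^ 2 := le_trans (Nat.cast_nonneg _) hDcard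
      calc ((((A - A).card : ℝ) - 1) / 2) ^ 2 ≤ (Up.card : ℝ) ^ 2 := by
            apply pow_le_pow_left₀ (by linarith)
            linarith
        _ ≤ D.card * ((circ Up).card : ℝ) := hcs
        _ ≤ (Lw P Q + 2 * E0 / R ^ 2) * (circ ((A - A).image (fun w => v0 + w))).card :=
            mul_le_mul hDcard hmono (Nat.cast_nonneg _) hLw0

end Pool.Agent.Helper77.SD
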