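import Pool.Agent.Helper77.SD.Orth

/-!
Circle energy of (translates of) difference sets of small doubling.
-/

set_option autoImplicit false
open scoped Classical Pointwise

namespace Pool.Agent.Helper77.SD

/-- the doubling constant -/
noncomputable def dbl (A : Finset E) : ℝ := ((A - A).card : ℝ) / A.card

lemma card_le_sub (A : Finset E) (hA : A.Nonempty) : A.card ≤ (A - A).card :=
  Finset.card_le_card_sub_left hA

lemma one_le_dbl {A : Finset E} (hA : A.Nonempty) : 1 ≤ dbl A := by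
  unfold dbl
  have h0 : (0 : ℝ) < A.card := by exact_mod_cast hA.card_pos
  rw [le_div_iff₀ h0, one_mul]
  exact_mod_cast card_le_sub A hA

lemma dbl_le_card {A : Finset E} (hA : A.Nonempty) : dbl A ≤ A.card := by
  unfold dbl
  have h0 : (0 : ℝ) < A.card := by exact_mod_cast hA.card_pos
  rw [div_le_iff₀ h0]
  exact_mod_cast Finset.card_sub_le

lemma dbl_mul {A : Finset E} (hA : A.Nonempty) : dbl A * A.card = (A - A).card := by
  unfold dbl
  have h0 : (0 : ℝ) < A.card := by exact_mod_cast hA.card_pos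
  field_simp

lemma four_le {A : Finset E} (hA : A.Nonempty) :
    (((4 • A - 4 • A).card : ℕ) : ℝ) ≤ dbl A ^ 8 * A.card := by
  have h := Finset.pluennecke_ruzsa_inequality_nsmul_sub_nsmul_sub hA A 4 4
  have h2 : ((((4 • A - 4 • A).card : ℕ) : NNRat) : ℝ) ≤
      ((((((A - A).card : ℕ) : NNRat) / ((A.card : ℕ) : NNRat)) ^ (4 + 4) * ((A.card : ℕ) : NNRat) : NNRat) : ℝ) := by
    exact_mod_cast h
  push_cast at h2
  unfold dbl
  exact h2

/-- the set of the shifts -/
noncomputable def shf (t : E) : Finset E := {0, t + t, -(t + t)}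

lemma shf_card (t : E) : (shf t).card ≤ 3 := Finset.card_le_three

/-- **Circle energy of a translate of a difference set.** -/
lemma circ_diff {A : Finset E} (hA : A.Nonempty) (t : E) :
    ((circ ((A - A).image (fun w => t + w))).card : ℝ) ≤
      380 * (dbl A ^ 8 * A.card) * (Real.logb 2 (9 * (dbl A ^ 8 * A.card)) + 1) := by
  set B : Finset E := 2 • A - 2 • A with hB
  set W : Finset E := shf t + B with hW
  have hBsym : ∀ z ∈ B, -z ∈ B := by
    intro z hz
    rw [hB, Finset.mem_sub] at hz ⊢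
    obtain ⟨a, ha, b, hb, rfl⟩ := hz
    exact ⟨b, hb, a, ha, by abel⟩
  have hWsym : ∀ z ∈ W, -z ∈ W := by
    intro z hz
    rw [hW, Finset.mem_add] at hz
    obtain ⟨s, hs, b, hb, rfl⟩ := hz
    have hs' : -s ∈ shf t := by
      unfold shf at hs ⊢
      rw [Finset.mem_insert, Finset.mem_insert, Finset.mem_singleton] at hs ⊢
      rcases hs with rfl | rfl | rfl
      · left; simp
      · right; right; rfl
      · right; left; simp
    rw [neg_add]
    exact Finset.add_mem_add hs' (hBsym b hb)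
  have hBadd : ∀ x ∈ A - A, ∀ y ∈ A - A, x + y ∈ B := by
    intro x hx y hy
    rw [Finset.mem_sub] at hx hy
    obtain ⟨a, ha, b, hb, rfl⟩ := hx
    obtain ⟨c, hc, d, hd, rfl⟩ := hy
    have e : (a - b) + (c - d) = (a + c) - (b + d) := by abel
    rw [e, hB, two_nsmul]
    exact Finset.sub_mem_sub (Finset.add_mem_add ha hc) (Finset.add_mem_add hb hd)
  have hBsub : ∀ x ∈ A - A, ∀ y ∈ A - A, x - y ∈ B := by
    intro x hx y hy
    have hy' : -y ∈ A - A := by
      rw [Finset.mem_sub] at hy ⊢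
      obtain ⟨c, hc, d, hd, rfl⟩ := hy
      exact ⟨d, hd, c, hc, by abel⟩
    rw [sub_eq_add_neg]
    exact hBadd x hx _ hy'
  have h1 : ∀ x ∈ (A - A).image (fun w => t + w), ∀ y ∈ (A - A).image (fun w => t + w),
      x - y ∈ W := by
    intro x hx y hy
    rw [Finset.mem_image] at hx hy
    obtain ⟨x, hx, rfl⟩ := hx
    obtain ⟨y, hy, rfl⟩ := hy
    have e : (t + x) - (t + y) = 0 + (x - y) := by abel
    rw [e]
    exact Finset.add_mem_add (by simp [shf]) (hBsub x hx y hy)
  have h2 : ∀ x ∈ (A - A).image (fun w => t + w), ∀ y ∈ (A - A).image (fun w => t + w),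
      x + y ∈ W := by
    intro x hx y hy
    rw [Finset.mem_image] at hx hy
    obtain ⟨x, hx, rfl⟩ := hx
    obtain ⟨y, hy, rfl⟩ := hy
    have e : (t + x) + (t + y) = (t + t) + (x + y) := by abel
    rw [e]
    exact Finset.add_mem_add (by simp [shf]) (hBadd x hx y hy)
  have h3 := circ_card _ W hWsym h1 h2
  set M := (W + W).card with hM
  have hMle : (M : ℝ) ≤ 9 * (dbl A ^ 8 * A.card) := by
    have e : W + W = (shf t + shf t) + (4 • A - 4 • A) := by
      rw [hW, add_add_add_comm, hB, sub_add_sub_comm, ← add_nsmul]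
    have h4 : M ≤ (shf t + shf t).card * (4 • A - 4 • A).card := by
      rw [hM, e]
      exact Finset.card_add_le
    have h5 : (shf t + shf t).card ≤ 9 := by
      refine (Finset.card_add_le).trans ?_
      have := shf_card t
      nlinarith
    have h6 : M ≤ 9 * (4 • A - 4 • A).card := h4.trans (Nat.mul_le_mul_right _ h5)
    calc (M : ℝ) ≤ 9 * (((4 • A - 4 • A).card : ℕ) : ℝ) := by exact_mod_cast h6
      _ ≤ 9 * (dbl A ^ 8 * A.card) := by
        have := four_le hA
        linarith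
  have hMpos : 1 ≤ M := by
    rw [hM]
    apply Finset.card_pos.mpr
    obtain ⟨a, ha⟩ := hA
    have h0 : (0 : E) ∈ A - A := by
      rw [Finset.mem_sub]
      exact ⟨a, ha, a, ha, sub_self a⟩
    have hz : (0 : E) + (0 + 0) ∈ W := Finset.add_mem_add (by simp [shf]) (hBadd 0 h0 0 h0)
    exact ⟨_, Finset.add_mem_add hz hz⟩
  have hlog : (Nat.log 2 M : ℝ) ≤ Real.logb 2 (9 * (dbl A ^ 8 * A.card)) := by
    have h5 : (2 : ℝ) ^ (Nat.log 2 M) ≤ M := by
      exact_mod_cast Nat.pow_log_le_self 2 (by omega)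
    have h6 : (2 : ℝ) ^ (Nat.log 2 M) ≤ 9 * (dbl A ^ 8 * A.card) := h5.trans hMle
    have h7 : (0 : ℝ) < 9 * (dbl A ^ 8 * A.card) := lt_of_lt_of_le (by positivity) h6
    rw [Real.le_logb_iff_rpow_le (by norm_num) h7, Real.rpow_natCast]
    exact h6
  have hU : ((((A - A).image (fun w => t + w)).card : ℕ) : ℝ) ≤ dbl A ^ 8 * A.card := by
    have h5 : ((((A - A).image (fun w => t + w)).card : ℕ) : ℝ) ≤ ((A - A).card : ℝ) := by
      exact_mod_cast Finset.card_image_le
    refine h5.trans ?_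
    rw [← dbl_mul hA]
    apply mul_le_mul_of_nonneg_right _ (Nat.cast_nonneg _)
    exact le_self_pow₀ (one_le_dbl hA) (by norm_num)
  have h3' : ((circ ((A - A).image (fun w => t + w))).card : ℝ) ≤
      2 * ((((A - A).image (fun w => t + w)).card : ℕ) : ℝ) + 42 * M * ((Nat.log 2 M : ℝ) + 1) := by
    exact_mod_cast h3
  set X := dbl A ^ 8 * (A.card : ℝ) with hX
  have hX0 : 0 ≤ X := le_trans (Nat.cast_nonneg _) hU
  have hL0 : (0 : ℝ) ≤ (Nat.log 2 M : ℝ) := Nat.cast_nonneg _
  calc _ ≤ 2 * ((((A - A).image (fun w => t + w)).card : ℕ) : ℝ) + 42 * M * ((Nat.log 2 M : ℝ) + 1) := h3'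
    _ ≤ 2 * X + 42 * (9 * X) * (Real.logb 2 (9 * X) + 1) := by
      gcongr
    _ ≤ 380 * X * (Real.logb 2 (9 * X) + 1) := by
      have h8 : 0 ≤ Real.logb 2 (9 * X) := hL0.trans hlog
      nlinarith [mul_nonneg hX0 h8]

end Pool.Agent.Helper77.SD
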