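import Pool.Agent.Helper77.SD.Slope

/-!
The number of orthogonal pairs in a symmetric set, and the number of pairs of points of equal norm.
-/

set_option autoImplicit false
open scoped Classical Pointwise

namespace Pool.Agent.Helper77.SD

/-- dyadic summation -/
lemma dyadic {ι : Type*} (T : Finset ι) (a b : ι → ℕ) (M : ℕ) (hM : ∀ s ∈ T, a s ≤ M)
    (h1 : ∀ s ∈ T, a s * b s ≤ M)
    (h2 : ∀ k : ℕ, ∀ S ⊆ T, (∀ s ∈ S, k ≤ a s) → (S.card - 1) * k ^ 2 ≤ M)
    (hab : ∀ s ∈ T, b s ≤ a s) (hpos : ∀ s ∈ T, 1 ≤ a s) :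
    ∑ s ∈ T, a s * b s ≤ 5 * M * (Nat.log 2 M + 1) := by
  have hmaps : ∀ s ∈ T, Nat.log 2 (a s) ∈ Finset.range (Nat.log 2 M + 1) := by
    intro s hs
    rw [Finset.mem_range]
    have := Nat.log_mono_right (b := 2) (hM s hs)
    omega
  rw [← Finset.sum_fiberwise_of_maps_to hmaps]
  have hin : ∀ j ∈ Finset.range (Nat.log 2 M + 1),
      ∑ s ∈ T.filter (fun s => Nat.log 2 (a s) = j), a s * b s ≤ 5 * M := by
    intro j _
    set Tj := T.filter (fun s => Nat.log 2 (a s) = j) with hTj
    rcases Tj.eq_empty_or_nonempty with he | ⟨s0, hs0⟩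
    · rw [he]; simp
    have hsub : Tj ⊆ T := Finset.filter_subset _ _
    have hlo : ∀ s ∈ Tj, 2 ^ j ≤ a s := by
      intro s hs
      have h3 := (Finset.mem_filter.mp hs).2
      rw [← h3]
      exact Nat.pow_log_le_self 2 (by have := hpos s (hsub hs); omega)
    have hhi : ∀ s ∈ Tj, a s * b s ≤ 4 * (2 ^ j) ^ 2 := by
      intro s hs
      have h3 := (Finset.mem_filter.mp hs).2
      have h4 : a s < 2 ^ (j + 1) := by
        rw [← h3]
        exact Nat.lt_pow_succ_log_self (by norm_num) _
      have h5 := hab s (hsub hs)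
      calc a s * b s ≤ 2 ^ (j + 1) * 2 ^ (j + 1) := Nat.mul_le_mul h4.le (h5.trans h4.le)
        _ = 4 * (2 ^ j) ^ 2 := by ring
    have h6 := h2 (2 ^ j) Tj hsub hlo
    rw [← Finset.add_sum_erase _ _ hs0]
    have h7 : ∑ s ∈ Tj.erase s0, a s * b s ≤ (Tj.erase s0).card * (4 * (2 ^ j) ^ 2) := by
      rw [← smul_eq_mul]
      exact Finset.sum_le_card_nsmul _ _ _ (fun s hs => hhi s (Finset.mem_of_mem_erase hs))
    rw [Finset.card_erase_of_mem hs0] at h7
    have h8 := h1 s0 (hsub hs0)
    have h9 : (Tj.card - 1) * (4 * (2 ^ j) ^ 2) = 4 * ((Tj.card - 1) * (2 ^ j) ^ 2) := by ring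
    rw [h9] at h7
    omega
  calc _ ≤ ∑ _j ∈ Finset.range (Nat.log 2 M + 1), 5 * M := Finset.sum_le_sum hin
    _ = 5 * M * (Nat.log 2 M + 1) := by
      rw [Finset.sum_const, Finset.card_range, smul_eq_mul]
      ring

lemma inner2 (x y : E) : inner ℝ x y = x 0 * y 0 + x 1 * y 1 := by
  rw [PiLp.inner_apply, Fin.sum_univ_two]
  simp only [RCLike.inner_apply, conj_trivial]
  ring

/-- orthogonal pairs of nonzero vectors -/
noncomputable def orth (W : Finset E) : Finset (E × E) :=
  (W ×ˢ W).filter (fun p => p.1 ≠ 0 ∧ p.2 ≠ 0 ∧ inner ℝ p.1 p.2 = 0)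

noncomputable def orthP (W : Finset E) : Finset (E × E) :=
  (W ×ˢ W).filter (fun p => 0 < p.1 1 ∧ 0 < p.2 1 ∧ inner ℝ p.1 p.2 = 0)

lemma orthP_card (W : Finset E) :
    (orthP W).card ≤ 10 * (W + W).card * (Nat.log 2 (W + W).card + 1) := by
  set M := (W + W).card with hM
  set T := (orthP W).image (fun p => slp p.1) with hT
  have hcov : orthP W ⊆ T.biUnion (fun s => fib W s ×ˢ fib W (-s⁻¹)) := by
    rintro ⟨x, y⟩ hp
    rw [Finset.mem_biUnion]
    refine ⟨slp x, Finset.mem_image_of_mem (fun p : E × E => slp p.1) hp, ?_⟩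
    rw [orthP, Finset.mem_filter, Finset.mem_product, inner2] at hp
    obtain ⟨⟨h1, h2⟩, h3, h4, h5⟩ := hp
    simp only at h1 h2 h3 h4 h5
    rw [Finset.mem_product, mem_fib, mem_fib]
    simp only
    have hx0 : x 0 ≠ 0 := by
      intro h
      rw [h, zero_mul, zero_add] at h5
      exact absurd h5 (mul_pos h3 h4).ne'
    refine ⟨⟨h1, h3, ?_⟩, h2, h4, ?_⟩
    · unfold slp
      field_simp
    · unfold slp
      rw [inv_div]
      field_simp
      linear_combination h5
  have hM0 : ∀ s, (fib W s).card ≤ M := by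
    intro s
    rcases (fib W s).eq_empty_or_nonempty with he | ⟨z, hz⟩
    · rw [he]; simp
    have hz' : z ∈ W := (mem_fib.mp hz).1
    rw [hM]
    refine (Finset.card_le_card (Finset.filter_subset _ _)).trans ?_
    exact Finset.card_le_card_add_left ⟨z, hz'⟩
  have hne : ∀ s ∈ T, s ≠ 0 ∧ 1 ≤ (fib W s).card ∧ 1 ≤ (fib W (-s⁻¹)).card := by
    intro s hs
    rw [hT, Finset.mem_image] at hs
    obtain ⟨⟨x, y⟩, hp, rfl⟩ := hs
    have hc := hcov hp
    have hp' := hp
    rw [orthP, Finset.mem_filter, Finset.mem_product, inner2] at hp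
    obtain ⟨⟨h1, h2⟩, h3, h4, h5⟩ := hp
    simp only at h1 h2 h3 h4 h5
    have hx0 : x 0 ≠ 0 := by
      intro h
      rw [h, zero_mul, zero_add] at h5
      exact absurd h5 (mul_pos h3 h4).ne'
    refine ⟨div_ne_zero hx0 h3.ne', Finset.card_pos.mpr ⟨x, ?_⟩, Finset.card_pos.mpr ⟨y, ?_⟩⟩
    · rw [mem_fib]
      refine ⟨h1, h3, ?_⟩
      unfold slp
      field_simp
    · rw [mem_fib]
      refine ⟨h2, h4, ?_⟩
      unfold slp
      rw [inv_div]
      field_simp
      linear_combination h5
  have hinv : ∀ s : ℝ, s ≠ 0 → s ≠ -s⁻¹ := by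
    intro s hs h
    have : s * s = -1 := by
      nth_rewrite 2 [h]
      field_simp
    nlinarith [mul_self_nonneg s]
  have h12 : ∀ s ∈ T, (fib W s).card * (fib W (-s⁻¹)).card ≤ M := by
    intro s hs
    exact fib_mul_le W (hinv s (hne s hs).1)
  have hcard : (orthP W).card ≤ ∑ s ∈ T, (fib W s).card * (fib W (-s⁻¹)).card := by
    refine (Finset.card_le_card hcov).trans (Finset.card_biUnion_le.trans ?_)
    apply Finset.sum_le_sum
    intro s _
    rw [Finset.card_product]
  refine hcard.trans ?_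
  rw [← Finset.sum_filter_add_sum_filter_not T
    (fun s => (fib W (-s⁻¹)).card ≤ (fib W s).card)]
  have hA : ∑ s ∈ T.filter (fun s => (fib W (-s⁻¹)).card ≤ (fib W s).card),
      (fib W s).card * (fib W (-s⁻¹)).card ≤ 5 * M * (Nat.log 2 M + 1) := by
    apply dyadic
    · intro s _; exact hM0 s
    · intro s hs; exact h12 s (Finset.mem_filter.mp hs).1
    · intro k S _ hk
      exact sep_le W k S hk
    · intro s hs; exact (Finset.mem_filter.mp hs).2
    · intro s hs; exact (hne s (Finset.mem_filter.mp hs).1).2.1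
  have hB : ∑ s ∈ T.filter (fun s => ¬ (fib W (-s⁻¹)).card ≤ (fib W s).card),
      (fib W s).card * (fib W (-s⁻¹)).card ≤ 5 * M * (Nat.log 2 M + 1) := by
    have := dyadic (T.filter (fun s => ¬ (fib W (-s⁻¹)).card ≤ (fib W s).card))
      (fun s => (fib W (-s⁻¹)).card) (fun s => (fib W s).card) M
      (fun s _ => hM0 _)
      (by
        intro s hs
        rw [mul_comm]
        exact h12 s (Finset.mem_filter.mp hs).1)
      (by
        intro k S _ hk
        have hinj : Function.Injective (fun s : ℝ => -s⁻¹) := by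
          intro s t h
          exact inv_injective (neg_injective h)
        have h3 := sep_le W k (S.image (fun s : ℝ => -s⁻¹)) (by
          intro s hs
          rw [Finset.mem_image] at hs
          obtain ⟨t, ht, rfl⟩ := hs
          exact hk t ht)
        rwa [Finset.card_image_of_injective _ hinj] at h3)
      (by
        intro s hs
        have := (Finset.mem_filter.mp hs).2
        omega)
      (by
        intro s hs
        exact (hne s (Finset.mem_filter.mp hs).1).2.2)
    refine le_trans (le_of_eq ?_) this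
    apply Finset.sum_congr rfl
    intro s _
    exact mul_comm _ _
  calc _ ≤ 5 * M * (Nat.log 2 M + 1) + 5 * M * (Nat.log 2 M + 1) := Nat.add_le_add hA hB
    _ = 10 * M * (Nat.log 2 M + 1) := by ring

/-- horizontal and vertical vectors -/
lemma hv_le (W : Finset E) :
    (W.filter (fun z => z 1 = 0)).card * (W.filter (fun z => z 0 = 0)).card ≤ (W + W).card := by
  have hinj : Set.InjOn (fun p : E × E => p.1 + p.2)
      ((W.filter (fun z => z 1 = 0) ×ˢ W.filter (fun z => z 0 = 0) : Finset (E × E)) :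
        Set (E × E)) := by
    rintro ⟨x, y⟩ hx ⟨x', y'⟩ hx' h
    simp only [Finset.coe_product, Set.mem_prod, Finset.mem_coe, Finset.mem_filter] at hx hx' h
    obtain ⟨⟨-, h1⟩, -, h2⟩ := hx
    obtain ⟨⟨-, h3⟩, -, h4⟩ := hx'
    have e0 : x 0 + y 0 = x' 0 + y' 0 := by
      have := congrArg (fun z : E => z 0) h
      simpa using this
    have e1 : x 1 + y 1 = x' 1 + y' 1 := by
      have := congrArg (fun z : E => z 1) h
      simpa using this
    rw [Prod.mk.injEq]
    exact ⟨ext2 (by linarith) (by linarith), ext2 (by linarith) (by linarith)⟩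
  rw [← Finset.card_product, ← Finset.card_image_of_injOn hinj]
  apply Finset.card_le_card
  intro z hz
  rw [Finset.mem_image] at hz
  obtain ⟨⟨x, y⟩, hx, rfl⟩ := hz
  rw [Finset.mem_product, Finset.mem_filter, Finset.mem_filter] at hx
  exact Finset.add_mem_add hx.1.1 hx.2.1

lemma orth_card (W : Finset E) (hW : ∀ z ∈ W, -z ∈ W) :
    (orth W).card ≤ 42 * (W + W).card * (Nat.log 2 (W + W).card + 1) := by
  set M := (W + W).card with hM
  set H := W.filter (fun z => z 1 = 0) with hH
  set V := W.filter (fun z => z 0 = 0) with hV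
  have hcov : orth W ⊆ (H ×ˢ V) ∪ ((V ×ˢ H) ∪ (orthP W ∪ ((orthP W).image (fun p => (-p.1, p.2)) ∪
      ((orthP W).image (fun p => (p.1, -p.2)) ∪ (orthP W).image (fun p => (-p.1, -p.2)))))) := by
    rintro ⟨x, y⟩ hp
    rw [orth, Finset.mem_filter, Finset.mem_product, inner2] at hp
    obtain ⟨⟨h1, h2⟩, h3, h4, h5⟩ := hp
    simp only at h1 h2 h3 h4 h5
    simp only [Finset.mem_union, Finset.mem_product, Finset.mem_image, hH, hV, Finset.mem_filter,
      Prod.mk.injEq, orthP, inner2]
    by_cases hx1 : x 1 = 0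
    · left
      have hx0 : x 0 ≠ 0 := by
        intro h
        exact h3 (ext2 (by simpa using h) (by simpa using hx1))
      rw [hx1, zero_mul, add_zero] at h5
      have hy0 : y 0 = 0 := by
        rcases mul_eq_zero.mp h5 with h | h
        · exact absurd h hx0
        · exact h
      exact ⟨⟨h1, hx1⟩, h2, hy0⟩
    by_cases hy1 : y 1 = 0
    · right; left
      have hy0 : y 0 ≠ 0 := by
        intro h
        exact h4 (ext2 (by simpa using h) (by simpa using hy1))
      rw [hy1, mul_zero, add_zero] at h5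
      have hx0 : x 0 = 0 := by
        rcases mul_eq_zero.mp h5 with h | h
        · exact h
        · exact absurd h hy0
      exact ⟨⟨h1, hx0⟩, h2, hy1⟩
    right; right
    rcases lt_or_gt_of_ne hx1 with hx | hx
    · rcases lt_or_gt_of_ne hy1 with hy | hy
      · right; right; right
        refine ⟨(-x, -y), ⟨⟨hW x h1, hW y h2⟩, ?_, ?_, ?_⟩, by simp, by simp⟩
        · simpa using hx
        · simpa using hy
        · simp only [PiLp.neg_apply]
          linear_combination h5
      · right; left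
        refine ⟨(-x, y), ⟨⟨hW x h1, h2⟩, ?_, ?_, ?_⟩, by simp, rfl⟩
        · simpa using hx
        · exact hy
        · simp only [PiLp.neg_apply]
          linear_combination -h5
    · rcases lt_or_gt_of_ne hy1 with hy | hy
      · right; right; left
        refine ⟨(x, -y), ⟨⟨h1, hW y h2⟩, ?_, ?_, ?_⟩, rfl, by simp⟩
        · exact hx
        · simpa using hy
        · simp only [PiLp.neg_apply]
          linear_combination -h5
      · left
        exact ⟨⟨h1, h2⟩, hx, hy, h5⟩
  have hP := orthP_card W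
  rw [← hM] at hP
  have hHV : (H ×ˢ V).card ≤ M := by
    rw [Finset.card_product]
    exact hv_le W
  have hVH : (V ×ˢ H).card ≤ M := by
    rw [Finset.card_product, mul_comm]
    exact hv_le W
  have c1 := Finset.card_image_le (s := orthP W) (f := fun p : E × E => (-p.1, p.2))
  have c2 := Finset.card_image_le (s := orthP W) (f := fun p : E × E => (p.1, -p.2))
  have c3 := Finset.card_image_le (s := orthP W) (f := fun p : E × E => (-p.1, -p.2))
  have u0 := (Finset.card_le_card hcov).trans (Finset.card_union_le _ _)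
  have u1 := Finset.card_union_le (V ×ˢ H) (orthP W ∪ ((orthP W).image (fun p => (-p.1, p.2)) ∪
      ((orthP W).image (fun p => (p.1, -p.2)) ∪ (orthP W).image (fun p => (-p.1, -p.2)))))
  have u2 := Finset.card_union_le (orthP W) ((orthP W).image (fun p => (-p.1, p.2)) ∪
      ((orthP W).image (fun p => (p.1, -p.2)) ∪ (orthP W).image (fun p => (-p.1, -p.2))))
  have u3 := Finset.card_union_le ((orthP W).image (fun p => (-p.1, p.2)))
      ((orthP W).image (fun p => (p.1, -p.2)) ∪ (orthP W).image (fun p => (-p.1, -p.2)))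
  have u4 := Finset.card_union_le ((orthP W).image (fun p => (p.1, -p.2)))
      ((orthP W).image (fun p => (-p.1, -p.2)))
  have hML : M ≤ M * (Nat.log 2 M + 1) := Nat.le_mul_of_pos_right _ (Nat.succ_pos _)
  have e1 : 10 * M * (Nat.log 2 M + 1) = 10 * (M * (Nat.log 2 M + 1)) := by ring
  have e2 : 42 * M * (Nat.log 2 M + 1) = 42 * (M * (Nat.log 2 M + 1)) := by ring
  rw [e1] at hP
  rw [e2]
  omega

/-- pairs of points of equal norm -/
noncomputable def circ (U : Finset E) : Finset (E × E) :=
  (U ×ˢ U).filter (fun p => ‖p.1‖ = ‖p.2‖)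

lemma circ_card (U W : Finset E) (hW : ∀ z ∈ W, -z ∈ W) (h1 : ∀ x ∈ U, ∀ y ∈ U, x - y ∈ W)
    (h2 : ∀ x ∈ U, ∀ y ∈ U, x + y ∈ W) :
    (circ U).card ≤ 2 * U.card + 42 * (W + W).card * (Nat.log 2 (W + W).card + 1) := by
  have hcov : circ U ⊆ (U.image (fun x => (x, x))) ∪ ((U.image (fun x => (x, -x))) ∪
      (circ U).filter (fun p => p.1 ≠ p.2 ∧ p.1 ≠ -p.2)) := by
    rintro ⟨x, y⟩ hp
    have hp' := hp
    rw [circ, Finset.mem_filter, Finset.mem_product] at hp'
    simp only [Finset.mem_union, Finset.mem_image, Finset.mem_filter, Prod.mk.injEq]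
    by_cases hxy : x = y
    · left
      exact ⟨x, hp'.1.1, rfl, hxy⟩
    by_cases hxy' : x = -y
    · right; left
      refine ⟨x, hp'.1.1, rfl, ?_⟩
      rw [hxy', neg_neg]
    · right; right
      exact ⟨hp, hxy, hxy'⟩
  have hmap : ((circ U).filter (fun p => p.1 ≠ p.2 ∧ p.1 ≠ -p.2)).card ≤ (orth W).card := by
    apply Finset.card_le_card_of_injOn (fun p => (p.1 - p.2, p.1 + p.2))
    · rintro ⟨x, y⟩ hp
      simp only [Finset.coe_filter, Set.mem_ofPred_eq, circ, Finset.mem_filter,
        Finset.mem_product] at hp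
      obtain ⟨⟨⟨hx, hy⟩, hn⟩, hne, hne'⟩ := hp
      simp only [orth, Finset.coe_filter, Set.mem_ofPred_eq, Finset.mem_product]
      refine ⟨⟨h1 x hx y hy, h2 x hx y hy⟩, sub_ne_zero.mpr hne, ?_, ?_⟩
      · intro h
        exact hne' (eq_neg_of_add_eq_zero_left h)
      · have e1 := real_inner_self_eq_norm_sq x
        have e2 := real_inner_self_eq_norm_sq y
        rw [inner_sub_left, inner_add_right, inner_add_right, real_inner_comm x y, e1, e2, hn]
        ring
    · rintro ⟨x, y⟩ _ ⟨x', y'⟩ _ h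
      simp only [Prod.mk.injEq] at h
      obtain ⟨h3, h4⟩ := h
      have e1 : (2 : ℝ) • x = (2 : ℝ) • x' := by
        have : (x - y) + (x + y) = (x' - y') + (x' + y') := by rw [h3, h4]
        rw [two_smul, two_smul]
        calc x + x = (x - y) + (x + y) := by abel
          _ = (x' - y') + (x' + y') := this
          _ = x' + x' := by abel
      have e2 : x = x' := smul_right_injective _ (two_ne_zero) e1
      rw [e2] at h4
      rw [Prod.mk.injEq]
      exact ⟨e2, add_left_cancel h4⟩
  have c1 := Finset.card_image_le (s := U) (f := fun x : E => (x, x))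
  have c2 := Finset.card_image_le (s := U) (f := fun x : E => (x, -x))
  have u0 := (Finset.card_le_card hcov).trans (Finset.card_union_le _ _)
  have u1 := Finset.card_union_le (U.image (fun x : E => (x, -x)))
    ((circ U).filter (fun p => p.1 ≠ p.2 ∧ p.1 ≠ -p.2))
  have h3 := orth_card W hW
  omega

end Pool.Agent.Helper77.SD
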