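import Mathlib

/-!
Sums of points on different lines through the origin (Solymosi's argument).
-/

set_option autoImplicit false
open scoped Classical Pointwise

namespace Pool.Agent.Helper77.SD

abbrev E := EuclideanSpace ℝ (Fin 2)

/-- the slope `x / y` -/
noncomputable def slp (z : E) : ℝ := z 0 / z 1

/-- the points of `W` of positive second coordinate and slope `s` -/
noncomputable def fib (W : Finset E) (s : ℝ) : Finset E :=
  W.filter (fun z => 0 < z 1 ∧ slp z = s)

lemma mem_fib {W : Finset E} {s : ℝ} {z : E} : z ∈ fib W s ↔ z ∈ W ∧ 0 < z 1 ∧ z 0 = s * z 1 := by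
  unfold fib slp
  rw [Finset.mem_filter]
  constructor
  · rintro ⟨h1, h2, h3⟩
    refine ⟨h1, h2, ?_⟩
    rw [← h3]
    field_simp
  · rintro ⟨h1, h2, h3⟩
    refine ⟨h1, h2, ?_⟩
    rw [h3]
    field_simp

lemma ext2 {z w : E} (h0 : z 0 = w 0) (h1 : z 1 = w 1) : z = w := by
  ext i
  fin_cases i
  · exact h0
  · exact h1

/-- the sums of two fibres are distinct -/
lemma inj_fib {W : Finset E} {s s' : ℝ} (hs : s ≠ s') :
    Set.InjOn (fun p : E × E => p.1 + p.2) ((fib W s ×ˢ fib W s' : Finset (E × E)) : Set (E × E)) := by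
  rintro ⟨x, y⟩ hx ⟨x', y'⟩ hx' h
  simp only [Finset.coe_product, Set.mem_prod, Finset.mem_coe, mem_fib] at hx hx' h
  obtain ⟨⟨-, -, h1⟩, -, -, h2⟩ := hx
  obtain ⟨⟨-, -, h3⟩, -, -, h4⟩ := hx'
  have e0 : x 0 + y 0 = x' 0 + y' 0 := by
    have := congrArg (fun z : E => z 0) h
    simpa using this
  have e1 : x 1 + y 1 = x' 1 + y' 1 := by
    have := congrArg (fun z : E => z 1) h
    simpa using this
  have k : (s - s') * (x 1 - x' 1) = 0 := by
    rw [h1, h2, h3, h4] at e0
    linear_combination e0 - s' * e1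
  have k1 : x 1 = x' 1 := by
    rcases mul_eq_zero.mp k with k | k
    · exact absurd (sub_eq_zero.mp k) hs
    · linarith
  have k2 : y 1 = y' 1 := by linarith
  rw [Prod.mk.injEq]
  exact ⟨ext2 (by rw [h1, h3, k1]) k1, ext2 (by rw [h2, h4, k2]) k2⟩

lemma fib_mul_le (W : Finset E) {s s' : ℝ} (hs : s ≠ s') :
    (fib W s).card * (fib W s').card ≤ (W + W).card := by
  rw [← Finset.card_product, ← Finset.card_image_of_injOn (inj_fib hs)]
  apply Finset.card_le_card
  intro z hz
  rw [Finset.mem_image] at hz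
  obtain ⟨⟨x, y⟩, hx, rfl⟩ := hz
  rw [Finset.mem_product] at hx
  exact Finset.add_mem_add (mem_fib.mp hx.1).1 (mem_fib.mp hx.2).1

/-- slopes of sums -/
lemma slp_add {x y : E} {s s' : ℝ} (hs : s < s') (hx : 0 < x 1) (hy : 0 < y 1)
    (h1 : x 0 = s * x 1) (h2 : y 0 = s' * y 1) :
    0 < (x + y) 1 ∧ s < slp (x + y) ∧ slp (x + y) < s' := by
  have hp : 0 < x 1 + y 1 := by linarith
  have e0 : (x + y) 0 = x 0 + y 0 := by simp
  have e1 : (x + y) 1 = x 1 + y 1 := by simp
  unfold slp
  rw [e0, e1]
  refine ⟨hp, ?_, ?_⟩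
  · rw [lt_div_iff₀ hp, h1, h2]
    nlinarith
  · rw [div_lt_iff₀ hp, h1, h2]
    nlinarith

/-- the sums that are below some slope of `S` -/
noncomputable def blw (W : Finset E) (S : Finset ℝ) : Finset E :=
  (W + W).filter (fun z => 0 < z 1 ∧ ∃ s ∈ S, slp z < s)

/-- **Solymosi's argument.** -/
lemma sep_le (W : Finset E) (k : ℕ) (S : Finset ℝ) (hS : ∀ s ∈ S, k ≤ (fib W s).card) :
    (S.card - 1) * k ^ 2 ≤ (W + W).card := by
  have key : ∀ S : Finset ℝ, (∀ s ∈ S, k ≤ (fib W s).card) →
      (S.card - 1) * k ^ 2 ≤ (blw W S).card := by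
    intro S
    induction S using Finset.induction_on_max with
    | empty => intro _; simp
    | insert m S hm ih =>
      intro hS
      have hmS : m ∉ S := fun h => lt_irrefl _ (hm m h)
      rw [Finset.card_insert_of_notMem hmS]
      rcases S.eq_empty_or_nonempty with rfl | hne
      · simp
      obtain ⟨t, htS, htmax⟩ := Finset.exists_max_image S id hne
      simp only [id] at htmax
      have htm : t < m := hm t htS
      have ih' := ih (fun s hs => hS s (Finset.mem_insert_of_mem hs))
      have hnew : k ^ 2 ≤ ((fib W t ×ˢ fib W m).image (fun p : E × E => p.1 + p.2)).card := by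
        rw [Finset.card_image_of_injOn (inj_fib htm.ne), Finset.card_product, sq]
        exact Nat.mul_le_mul (hS t (Finset.mem_insert_of_mem htS))
          (hS m (Finset.mem_insert_self _ _))
      have hsl : ∀ z ∈ (fib W t ×ˢ fib W m).image (fun p : E × E => p.1 + p.2),
          z ∈ W + W ∧ 0 < z 1 ∧ t < slp z ∧ slp z < m := by
        intro z hz
        rw [Finset.mem_image] at hz
        obtain ⟨⟨x, y⟩, hx, rfl⟩ := hz
        rw [Finset.mem_product, mem_fib, mem_fib] at hx
        obtain ⟨⟨a1, a2, a3⟩, b1, b2, b3⟩ := hx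
        exact ⟨Finset.add_mem_add a1 b1, slp_add htm a2 b2 a3 b3⟩
      have hdis : Disjoint (blw W S)
          ((fib W t ×ˢ fib W m).image (fun p : E × E => p.1 + p.2)) := by
        rw [Finset.disjoint_left]
        intro z hz hz'
        obtain ⟨-, -, h3, -⟩ := hsl z hz'
        rw [blw, Finset.mem_filter] at hz
        obtain ⟨-, -, s, hs, hzs⟩ := hz
        have := htmax s hs
        linarith
      have hsub : blw W S ∪ ((fib W t ×ˢ fib W m).image (fun p : E × E => p.1 + p.2)) ⊆
          blw W (insert m S) := by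
        intro z hz
        rw [Finset.mem_union] at hz
        rcases hz with hz | hz
        · rw [blw, Finset.mem_filter] at hz ⊢
          obtain ⟨h1, h2, s, hs, hzs⟩ := hz
          exact ⟨h1, h2, s, Finset.mem_insert_of_mem hs, hzs⟩
        · obtain ⟨h1, h2, -, h4⟩ := hsl z hz
          rw [blw, Finset.mem_filter]
          exact ⟨h1, h2, m, Finset.mem_insert_self _ _, h4⟩
      have h5 := Finset.card_le_card hsub
      rw [Finset.card_union_of_disjoint hdis] at h5
      have h6 : 1 ≤ S.card := hne.card_pos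
      have h7 : (S.card + 1 - 1) * k ^ 2 = (S.card - 1) * k ^ 2 + k ^ 2 := by
        obtain ⟨c, hc⟩ : ∃ c, S.card = c + 1 := ⟨S.card - 1, by omega⟩
        rw [hc]
        simp only [Nat.add_sub_cancel]
        ring
      rw [h7]
      omega
  exact (key S hS).trans (Finset.card_le_card (Finset.filter_subset _ _))

end Pool.Agent.Helper77.SD
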